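import Mathlib
import Pool.Agent.X7.CloseDeg

/-!
# Minimum number of degree-close vertex pairs in a graph

We prove `h_k(G) ≥ f₀(n, k)` for all `n > k ≥ 1` and every graph `G` on `n` vertices.
-/

open Finset

namespace Pool.Agent.Results.MP_3eb7f1_co.CloseDegreePairs

/-- The graph of close pairs: two distinct vertices are joined exactly when their degrees in `G`
differ by less than `k`. -/
def closeGraph {n : ℕ} (G : SimpleGraph (Fin n)) [DecidableRel G.Adj] (k : ℕ) :
    SimpleGraph (Fin n) where
  Adj x y := x ≠ y ∧ |(G.degree x : ℤ) - G.degree y| < k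
  symm := ⟨fun _ _ h => ⟨h.1.symm, by rw [abs_sub_comm]; exact h.2⟩⟩
  loopless := ⟨fun _ h => h.1 rfl⟩

instance {n : ℕ} (G : SimpleGraph (Fin n)) [DecidableRel G.Adj] (k : ℕ) :
    DecidableRel (closeGraph G k).Adj :=
  fun x y => inferInstanceAs (Decidable (x ≠ y ∧ |(G.degree x : ℤ) - G.degree y| < k))

/-- `h_k(G)`: the number of unordered pairs of distinct vertices whose degrees differ by less
than `k`. -/
def closePairs {n : ℕ} (G : SimpleGraph (Fin n)) [DecidableRel G.Adj] (k : ℕ) : ℕ :=
  #(closeGraph G k).edgeFinset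

/-- The number `t = n - k (⌈n/k⌉ - 1)`. -/
def tpar (n k : ℕ) : ℕ := n - k * (⌈(n : ℚ) / k⌉₊ - 1)

/-- The conjectured minimum `f₀(n, k)`. -/
def f0 (n k : ℕ) : ℕ :=
  (⌈(n : ℚ) / k⌉₊ - 2) * k.choose 2 + (k + 1).choose 2 + (tpar n k - 1).choose 2

open Pool.Agent.X7.CDP

lemma deg_ineq {n t : ℕ} (G : SimpleGraph (Fin n)) [DecidableRel G.Adj] (A B : Finset (Fin n))
    (hAB : Disjoint A B) (hA : #A = t) (hB : #B = t) :
    ∑ a ∈ A, G.degree a ≤ ∑ b ∈ B, G.degree b + t * (n - 1 - t) := by
  have h1 : ∀ a ∈ A, G.degree a ≤ #(B.filter (fun b => G.Adj a b)) + (n - 1 - t) := by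
    intro a ha
    have haB : a ∉ B := Finset.disjoint_left.1 hAB ha
    have h2 : G.neighborFinset a ⊆ B.filter (fun b => G.Adj a b) ∪ ((univ.erase a) \ B) := by
      intro x hx
      rw [SimpleGraph.mem_neighborFinset] at hx
      simp only [mem_union, mem_filter, mem_sdiff, mem_erase, mem_univ, and_true]
      by_cases hxB : x ∈ B
      · exact Or.inl ⟨hxB, hx⟩
      · exact Or.inr ⟨hx.ne', hxB⟩
    have h3 : #((univ.erase a) \ B) = n - 1 - t := by
      rw [card_sdiff_of_subset, card_erase_of_mem (mem_univ _), hB]
      · simp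
      · intro x hx
        simp only [mem_erase, mem_univ, and_true]
        rintro rfl
        exact haB hx
    rw [← SimpleGraph.card_neighborFinset_eq_degree]
    calc #(G.neighborFinset a) ≤ _ := card_le_card h2
      _ ≤ _ := card_union_le _ _
      _ = _ := by rw [h3]
  calc ∑ a ∈ A, G.degree a ≤ ∑ a ∈ A, (#(B.filter (fun b => G.Adj a b)) + (n - 1 - t)) :=
        sum_le_sum h1
    _ = ∑ a ∈ A, #(B.filter (fun b => G.Adj a b)) + t * (n - 1 - t) := by
        rw [sum_add_distrib, sum_const, hA, smul_eq_mul]
    _ ≤ ∑ b ∈ B, G.degree b + t * (n - 1 - t) := by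
        gcongr
        have : ∑ a ∈ A, #(B.filter (fun b => G.Adj a b)) =
            ∑ b ∈ B, #(A.filter (fun a => G.Adj a b)) :=
          Finset.sum_card_bipartiteAbove_eq_sum_card_bipartiteBelow (fun a b => G.Adj a b)
        rw [this]
        refine sum_le_sum fun b _ => ?_
        rw [← SimpleGraph.card_neighborFinset_eq_degree]
        refine card_le_card ?_
        intro x hx
        rw [SimpleGraph.mem_neighborFinset]
        exact (mem_filter.1 hx).2.symm

lemma two_choose (a : ℕ) : 2 * a.choose 2 = a * (a - 1) := by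
  rw [Nat.choose_two_right, Nat.mul_div_cancel' (Nat.even_mul_pred_self a).two_dvd]

lemma ceil_eq {n k m t : ℕ} (hk : 1 ≤ k) (ht1 : 1 ≤ t) (htk : t ≤ k) (hn : n = m * k + t) :
    ⌈(n : ℚ) / k⌉₊ = m + 1 := by
  have hk' : (0 : ℚ) < k := by exact_mod_cast hk
  rw [Nat.ceil_eq_iff (by omega)]
  constructor
  · rw [lt_div_iff₀ hk']
    have : m * k < n := by omega
    simp only [Nat.add_sub_cancel]
    exact_mod_cast this
  · rw [div_le_iff₀ hk']
    have : n ≤ (m + 1) * k := by
      have : (m + 1) * k = m * k + k := by ring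
      omega
    exact_mod_cast this

/-- **Main result.** For all integers `n > k ≥ 1`, every graph `G` on `n` vertices has at least
`f₀(n,k)` unordered pairs of distinct vertices whose degrees differ by less than `k`. -/
theorem result (n k : ℕ) (hk : 1 ≤ k) (hkn : k < n) (G : SimpleGraph (Fin n))
    [DecidableRel G.Adj] : f0 n k ≤ closePairs G k := by
  classical
  obtain ⟨m, t, hm, ht1, htk, hn⟩ : ∃ m t, 1 ≤ m ∧ 1 ≤ t ∧ t ≤ k ∧ n = m * k + t := by
    refine ⟨(n - 1) / k, (n - 1) % k + 1, ?_, by omega, ?_, ?_⟩
    · rw [Nat.one_le_div_iff (by omega)]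
      omega
    · have := Nat.mod_lt (n - 1) (by omega : k > 0)
      omega
    · have := Nat.div_add_mod (n - 1) k
      rw [mul_comm] at this
      omega
  have hmk : k ≤ m * k := Nat.le_mul_of_pos_left k hm
  have hmk1 : (m + 1) * k = m * k + k := by ring
  -- sort the vertices by degree, highest first
  let σ : Equiv.Perm (Fin n) := Tuple.sort (fun i => -(G.degree i : ℤ))
  have hσ : Monotone ((fun i => -(G.degree i : ℤ)) ∘ σ) := Tuple.monotone_sort _
  let d : Fin n → ℕ := fun i => G.degree (σ i)
  have hd : Antitone d := by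
    intro i j hij
    have := hσ hij
    simp only [Function.comp] at this
    simp only [d]
    omega
  have hlt : ∀ x : Fin n, G.degree x < n := by
    intro x
    have := G.degree_lt_card_verts x
    simpa using this
  have ha : ∀ i j, d i < d j + (m + 1) * k := by
    intro i j
    have := hlt (σ i)
    simp only [d]
    omega
  have hb : ∀ i j : Fin n, i.val = t - 1 → j.val = n - t → d i < d j + m * k := by
    intro i j hi hj
    by_contra hcon
    push Not at hcon
    have hdeg := deg_ineq (t := t) G
      ((univ.filter (fun x : Fin n => x.val < t)).map σ.toEmbedding)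
      ((univ.filter (fun x : Fin n => n - t ≤ x.val)).map σ.toEmbedding)
      (by
        rw [Finset.disjoint_map, Finset.disjoint_left]
        intro x hx hy
        simp only [mem_filter, mem_univ, true_and] at hx hy
        omega)
      (by rw [card_map]; exact card_initial (by omega))
      (by
        rw [card_map]
        have h1 := card_initial (n := n) (a := n - t) (by omega)
        have h2 := Finset.card_filter_add_card_filter_not (s := (univ : Finset (Fin n)))
          (fun i : Fin n => i.val < n - t)
        simp only [not_lt, card_univ, Fintype.card_fin] at h2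
        omega)
    rw [sum_map, sum_map] at hdeg
    have hs1 : t * (d j + m * k) ≤ ∑ x ∈ univ.filter (fun x : Fin n => x.val < t), d x := by
      have : ∑ x ∈ univ.filter (fun x : Fin n => x.val < t), (d j + m * k) ≤
          ∑ x ∈ univ.filter (fun x : Fin n => x.val < t), d x := by
        refine sum_le_sum fun x hx => ?_
        simp only [mem_filter, mem_univ, true_and] at hx
        exact le_trans hcon (hd (by rw [Fin.le_def]; omega))
      rwa [sum_const, card_initial (by omega), smul_eq_mul] at this
    have hs2 : ∑ x ∈ univ.filter (fun x : Fin n => n - t ≤ x.val), d x ≤ t * d j := by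
      have : ∑ x ∈ univ.filter (fun x : Fin n => n - t ≤ x.val), d x ≤
          ∑ x ∈ univ.filter (fun x : Fin n => n - t ≤ x.val), d j := by
        refine sum_le_sum fun x hx => ?_
        simp only [mem_filter, mem_univ, true_and] at hx
        exact hd (by rw [Fin.le_def]; omega)
      rw [sum_const, smul_eq_mul] at this
      have hc : #(univ.filter (fun x : Fin n => n - t ≤ x.val)) = t := by
        have h1 := card_initial (n := n) (a := n - t) (by omega)
        have h2 := Finset.card_filter_add_card_filter_not (s := (univ : Finset (Fin n)))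
          (fun i : Fin n => i.val < n - t)
        simp only [not_lt, card_univ, Fintype.card_fin] at h2
        omega
      rwa [hc] at this
    have hs3 : t * (d j + m * k) ≤ t * d j + t * (n - 1 - t) :=
      le_trans hs1 (le_trans hdeg (by gcongr; exact hs2))
    have hs4 : n - 1 - t + 1 = m * k := by omega
    have hs5 : t * (m * k) ≤ t * (n - 1 - t) := by
      rw [mul_add] at hs3
      omega
    have hs6 : m * k ≤ n - 1 - t := Nat.le_of_mul_le_mul_left hs5 (by omega)
    omega
  have hcore := core hk ht1 htk hm hn d hd ha hb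
  have hpairs : #(univ.filter (fun p : Fin n × Fin n => near d k p.1 p.2)) ≤
      #(univ.filter (fun p : Fin n × Fin n => (closeGraph G k).Adj p.1 p.2)) := by
    refine card_le_card_of_injOn (fun p => (σ p.1, σ p.2)) ?_ ?_
    · intro p hp
      simp only [coe_filter, mem_univ, true_and, Set.mem_ofPred_eq] at hp ⊢
      exact ⟨fun h => hp.1 (σ.injective h), hp.2⟩
    · intro p _ q _ h
      simp only [Prod.mk.injEq] at h
      exact Prod.ext (σ.injective h.1) (σ.injective h.2)
  rw [pairs_eq_twice] at hpairs
  have hceil := ceil_eq hk ht1 htk hn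
  have htp : tpar n k = t := by
    unfold tpar
    rw [hceil, Nat.add_sub_cancel, mul_comm]
    omega
  have hclose : closePairs G k = #(closeGraph G k).edgeFinset := rfl
  rw [hclose]
  unfold f0
  rw [hceil, htp]
  have e1 := two_choose k
  have e2 := two_choose (k + 1)
  have e3 := two_choose (t - 1)
  obtain ⟨m', rfl⟩ : ∃ m', m = m' + 1 := ⟨m - 1, by omega⟩
  obtain ⟨k', rfl⟩ : ∃ k', k = k' + 1 := ⟨k - 1, by omega⟩
  simp only [Nat.add_sub_cancel] at e1 e2 hcore ⊢
  have e4 : (t - 1) * (t - 1 - 1) = (t - 1) * (t - 1) - (t - 1) := by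
    rw [Nat.mul_sub, mul_one]
  rw [e4] at e3
  have e5 : m' + 1 + 1 - 2 = m' := by omega
  rw [e5]
  nlinarith

end Pool.Agent.Results.MP_3eb7f1_co.CloseDegreePairs
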